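import Pool.Agent.H60.FU.Exist
import Pool.Agent.H75.FU.Full

/-!
# Periodic orbits and finite coverings
-/

set_option autoImplicit false

open Filter Topology Function Set

namespace Pool.Agent.H70.CV

variable {X Y : Type*}

/-- The set of primitive periodic orbits of period at most `T`. -/
def orbs (φ : X → X) (T : ℝ) : Set (Set X) :=
  {O | ∃ x, 0 < minimalPeriod φ x ∧ (minimalPeriod φ x : ℝ) ≤ T ∧ O = {y | ∃ k : ℕ, y = φ^[k] x}}

theorem orb_eq {f : X → X} {x z : X} (hx : 0 < minimalPeriod f x) {k : ℕ} (hz : z = f^[k] x) :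
    {y | ∃ j : ℕ, y = f^[j] z} = {y | ∃ j : ℕ, y = f^[j] x} := by
  ext y
  constructor
  · rintro ⟨j, rfl⟩
    exact ⟨j + k, by rw [hz, iterate_add_apply]⟩
  · rintro ⟨j, rfl⟩
    set p := minimalPeriod f x with hp
    have h1 : f^[p] x = x := iterate_minimalPeriod
    have h2 : ∀ m, f^[m * p] x = x := by
      intro m
      induction m with
      | zero => simp
      | succ m ih => rw [Nat.succ_mul, iterate_add_apply, h1, ih]
    -- choose `m` with `m * p ≥ k`
    have h3 : k ≤ k * p := Nat.le_mul_of_pos_right k hx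
    refine ⟨j + (k * p - k), ?_⟩
    rw [hz, ← iterate_add_apply, show j + (k * p - k) + k = j + k * p by omega,
      iterate_add_apply, h2]

theorem iter_semi {f : X → X} {g : Y → Y} {π : X → Y} (hπ : ∀ x, π (f x) = g (π x)) (k : ℕ)
    (x : X) : π (f^[k] x) = g^[k] (π x) := by
  induction k generalizing x with
  | zero => rfl
  | succ k ih => rw [iterate_succ_apply, iterate_succ_apply, ih, hπ]

theorem encard_orbs_le {f : X → X} {g : Y → Y} {π : X → Y} (hπ : ∀ x, π (f x) = g (π x))
    {D : ℕ} (hD : ∀ y, ∃ ι : X → Fin D, InjOn ι (π ⁻¹' {y})) (T : ℝ) :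
    (orbs f T).encard ≤ (orbs g T).encard * D := by
  classical
  rcases isEmpty_or_nonempty X with hX | ⟨⟨x0⟩⟩
  · have : orbs f T = ∅ := by
      ext O
      simp only [orbs, mem_setOf_eq, mem_empty_iff_false, iff_false, not_exists]
      intro x
      exact (hX.false x).elim
    rw [this, encard_empty]
    exact zero_le
  have : Nonempty (Fin D) := ⟨(hD (π x0)).choose x0⟩
  choose ι hι using hD
  -- image of an orbit
  have him : ∀ O ∈ orbs f T, π '' O ∈ orbs g T := by
    rintro O ⟨x, h1, h2, rfl⟩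
    have h3 : g^[minimalPeriod f x] (π x) = π x := by
      rw [← iter_semi hπ, iterate_minimalPeriod]
    have h4 : minimalPeriod g (π x) ∣ minimalPeriod f x := IsPeriodicPt.minimalPeriod_dvd h3
    refine ⟨π x, Nat.pos_of_dvd_of_pos h4 h1, ?_, ?_⟩
    · refine le_trans ?_ h2
      exact_mod_cast Nat.le_of_dvd h1 h4
    · ext y
      simp only [mem_image, mem_setOf_eq]
      constructor
      · rintro ⟨z, ⟨k, rfl⟩, rfl⟩
        exact ⟨k, iter_semi hπ k x⟩
      · rintro ⟨k, rfl⟩
        exact ⟨_, ⟨k, rfl⟩, iter_semi hπ k x⟩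
  -- a base point of each orbit of `g`
  let b : Set Y → Y := fun O' => if h : O'.Nonempty then h.some else π x0
  have hb : ∀ O ∈ orbs f T, ∃ x ∈ O, π x = b (π '' O) := by
    rintro O hO
    have h1 : (π '' O).Nonempty := by
      obtain ⟨x, -, -, rfl⟩ := hO
      exact ⟨π x, x, ⟨0, rfl⟩, rfl⟩
    have h2 : b (π '' O) ∈ π '' O := by
      simp only [b, dif_pos h1]
      exact h1.some_mem
    obtain ⟨x, hx, hx2⟩ := h2
    exact ⟨x, hx, hx2⟩
  let c : Set X → X := fun O => if h : ∃ x ∈ O, π x = b (π '' O) then h.choose else x0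
  have hc : ∀ O ∈ orbs f T, c O ∈ O ∧ π (c O) = b (π '' O) := by
    intro O hO
    have h := hb O hO
    simp only [c, dif_pos h]
    exact h.choose_spec
  have h5 : (orbs f T).encard ≤ ((orbs g T) ×ˢ (univ : Set (Fin D))).encard := by
    refine encard_le_encard_of_injOn (f := fun O => (π '' O, ι (b (π '' O)) (c O))) ?_ ?_
    · intro O hO
      exact ⟨him O hO, mem_univ _⟩
    · intro O hO O' hO' hOO'
      simp only [Prod.mk.injEq] at hOO'
      obtain ⟨e1, e2⟩ := hOO'
      obtain ⟨hc1, hc2⟩ := hc O hO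
      obtain ⟨hc1', hc2'⟩ := hc O' hO'
      rw [← e1] at e2 hc2'
      have h6 : c O = c O' := hι (b (π '' O)) hc2 hc2' e2
      obtain ⟨x, hx, -, rfl⟩ := hO
      obtain ⟨x', hx', -, rfl⟩ := hO'
      obtain ⟨k, hk⟩ := hc1
      obtain ⟨k', hk'⟩ := hc1'
      rw [← orb_eq hx hk, ← orb_eq hx' hk', h6]
  refine h5.trans ?_
  rw [encard_prod, encard_univ]
  simp

end Pool.Agent.H70.CV
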