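import Pool.Agent.H70.CV.Group

/-!
# Rational Darboux bases
-/

set_option autoImplicit false

open Filter Topology Function Set InnerProductSpace

namespace Pool.Agent.H70.CV

open Pool.Agent.H60.QG (PtE)

variable {n : ℕ}

/-- The symplectic form as a bilinear map. -/
noncomputable def om (n : ℕ) : PtE n →ₗ[ℝ] PtE n →ₗ[ℝ] ℝ :=
  LinearMap.mk₂ ℝ omega (fun a b c => by unfold omega; simp [inner_add_left]; ring)
    (fun r a b => by unfold omega; simp [inner_smul_left]; ring)
    (fun a b c => by unfold omega; simp [inner_add_right]; ring)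
    (fun r a b => by unfold omega; simp [inner_smul_right]; ring)

theorem om_apply (a b : PtE n) : om n a b = omega a b := rfl

theorem om_swap (a b : PtE n) : om n a b = -om n b a := by
  rw [om_apply, om_apply]
  unfold omega
  rw [real_inner_comm b.1 a.2, real_inner_comm b.2 a.1]
  ring

theorem om_self (a : PtE n) : om n a a = 0 := by
  have := om_swap a a
  linarith

/-- Vectors with a multiple in `L`. -/
def VQ (L : AddSubgroup (PtE n)) (w : PtE n) : Prop := ∃ N : ℕ, 0 < N ∧ (N : ℝ) • w ∈ L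

variable {L : AddSubgroup (PtE n)}

theorem nsmul_mem {w : PtE n} (h : w ∈ L) (N : ℕ) : (N : ℝ) • w ∈ L := by
  rw [Nat.cast_smul_eq_nsmul]
  exact L.nsmul_mem h N

theorem zsmul_mem' {w : PtE n} (h : w ∈ L) (N : ℤ) : (N : ℝ) • w ∈ L := by
  rw [Int.cast_smul_eq_zsmul]
  exact L.zsmul_mem h N

theorem VQ.of_mem {w : PtE n} (h : w ∈ L) : VQ L w := ⟨1, one_pos, by simpa using h⟩

theorem VQ.add {a b : PtE n} (ha : VQ L a) (hb : VQ L b) : VQ L (a + b) := by
  obtain ⟨N, hN, h1⟩ := ha
  obtain ⟨M, hM, h2⟩ := hb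
  refine ⟨N * M, Nat.mul_pos hN hM, ?_⟩
  rw [smul_add]
  refine L.add_mem ?_ ?_
  · rw [Nat.cast_mul, mul_comm, mul_smul]
    exact nsmul_mem h1 M
  · rw [Nat.cast_mul, mul_smul]
    exact nsmul_mem h2 N

theorem VQ.smul {a : PtE n} (ha : VQ L a) (q : ℚ) : VQ L ((q : ℝ) • a) := by
  obtain ⟨N, hN, h1⟩ := ha
  refine ⟨q.den * N, Nat.mul_pos q.pos hN, ?_⟩
  rw [smul_smul]
  have : ((q.den * N : ℕ) : ℝ) * (q : ℝ) = (q.num : ℝ) * (N : ℝ) := by
    have h2 : (q : ℝ) = (q.num : ℝ) / (q.den : ℝ) := Rat.cast_def q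
    have h3 : (q.den : ℝ) ≠ 0 := by exact_mod_cast q.pos.ne'
    rw [h2]
    push_cast
    field_simp
  rw [this, mul_smul]
  exact zsmul_mem' h1 _

theorem VQ.zero : VQ L 0 := VQ.of_mem L.zero_mem

theorem VQ.sum {ι : Type*} (s : Finset ι) (f : ι → PtE n) (h : ∀ i ∈ s, VQ L (f i)) :
    VQ L (∑ i ∈ s, f i) := by
  classical
  induction s using Finset.induction_on with
  | empty => simpa using VQ.zero
  | insert a s ha ih =>
    rw [Finset.sum_insert ha]
    exact (h a (Finset.mem_insert_self a s)).add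
      (ih fun i hi => h i (Finset.mem_insert_of_mem hi))

theorem VQ.om_rat {c : ℝ} (hL : ∀ a ∈ L, ∀ b ∈ L, ∃ k : ℤ, om n a b = c * k) {a b : PtE n}
    (ha : VQ L a) (hb : VQ L b) : ∃ q : ℚ, om n a b = c * q := by
  obtain ⟨N, hN, h1⟩ := ha
  obtain ⟨M, hM, h2⟩ := hb
  obtain ⟨k, hk⟩ := hL _ h1 _ h2
  simp only [map_smul, LinearMap.smul_apply] at hk
  refine ⟨(k : ℚ) / (N * M), ?_⟩
  have h3 : (N : ℝ) ≠ 0 := by exact_mod_cast hN.ne'
  have h4 : (M : ℝ) ≠ 0 := by exact_mod_cast hM.ne'
  simp only [smul_eq_mul] at hk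
  push_cast
  field_simp
  linarith

/-- The symplectic orthogonal projection. -/
noncomputable def pr (c : ℝ) (u v : ℕ → PtE n) (k : ℕ) (b : PtE n) : PtE n :=
  b - ∑ i ∈ Finset.range k, (om n b (v i) / c) • u i +
    ∑ i ∈ Finset.range k, (om n b (u i) / c) • v i

structure Dar (L : AddSubgroup (PtE n)) (c : ℝ) (u v : ℕ → PtE n) (k : ℕ) : Prop where
  vu : ∀ i < k, VQ L (u i)
  vv : ∀ i < k, VQ L (v i)
  uv : ∀ i < k, ∀ j < k, om n (u i) (v j) = if i = j then c else 0
  uu : ∀ i < k, ∀ j < k, om n (u i) (u j) = 0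
  vv0 : ∀ i < k, ∀ j < k, om n (v i) (v j) = 0

theorem Dar.pr_u {c : ℝ} (hc : c ≠ 0) {u v : ℕ → PtE n} {k : ℕ} (h : Dar L c u v k) (b : PtE n)
    {j : ℕ} (hj : j < k) : om n (pr c u v k b) (u j) = 0 := by
  unfold pr
  rw [map_add, map_sub, map_sum, map_sum]
  simp only [LinearMap.add_apply, LinearMap.sub_apply, LinearMap.sum_apply, map_smul,
    LinearMap.smul_apply, smul_eq_mul]
  have h1 : ∑ i ∈ Finset.range k, om n b (v i) / c * om n (u i) (u j) = 0 :=
    Finset.sum_eq_zero fun i hi => by rw [h.uu i (Finset.mem_range.1 hi) j hj, mul_zero]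
  have h2 : ∑ i ∈ Finset.range k, om n b (u i) / c * om n (v i) (u j) = -om n b (u j) := by
    rw [Finset.sum_eq_single j]
    · rw [om_swap (v j), h.uv j hj j hj, if_pos rfl]
      field_simp
    · intro i hi hij
      rw [om_swap (v i), h.uv j hj i (Finset.mem_range.1 hi), if_neg (Ne.symm hij)]
      ring
    · intro h'
      exact (h' (Finset.mem_range.2 hj)).elim
  rw [h1, h2]
  ring

theorem Dar.pr_v {c : ℝ} (hc : c ≠ 0) {u v : ℕ → PtE n} {k : ℕ} (h : Dar L c u v k) (b : PtE n)
    {j : ℕ} (hj : j < k) : om n (pr c u v k b) (v j) = 0 := by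
  unfold pr
  rw [map_add, map_sub, map_sum, map_sum]
  simp only [LinearMap.add_apply, LinearMap.sub_apply, LinearMap.sum_apply, map_smul,
    LinearMap.smul_apply, smul_eq_mul]
  have h1 : ∑ i ∈ Finset.range k, om n b (u i) / c * om n (v i) (v j) = 0 :=
    Finset.sum_eq_zero fun i hi => by rw [h.vv0 i (Finset.mem_range.1 hi) j hj, mul_zero]
  have h2 : ∑ i ∈ Finset.range k, om n b (v i) / c * om n (u i) (v j) = om n b (v j) := by
    rw [Finset.sum_eq_single j]
    · rw [h.uv j hj j hj, if_pos rfl]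
      field_simp
    · intro i hi hij
      rw [h.uv i (Finset.mem_range.1 hi) j hj, if_neg hij]
      ring
    · intro h'
      exact (h' (Finset.mem_range.2 hj)).elim
  rw [h1, h2]
  ring

theorem Dar.om_pr {c : ℝ} {u v : ℕ → PtE n} {k : ℕ} {w : PtE n}
    (hu : ∀ j < k, om n w (u j) = 0) (hv : ∀ j < k, om n w (v j) = 0) (b : PtE n) :
    om n w (pr c u v k b) = om n w b := by
  unfold pr
  rw [map_add, map_sub, map_sum, map_sum]
  rw [Finset.sum_eq_zero fun i hi => ?_, Finset.sum_eq_zero fun i hi => ?_]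
  · ring
  · rw [map_smul, hv i (Finset.mem_range.1 hi), smul_zero]
  · rw [map_smul, hu i (Finset.mem_range.1 hi), smul_zero]

theorem Dar.vpr {c : ℝ} (hc : c ≠ 0) (hL : ∀ a ∈ L, ∀ b ∈ L, ∃ k : ℤ, om n a b = c * k)
    {u v : ℕ → PtE n} {k : ℕ} (h : Dar L c u v k) {b : PtE n} (hb : VQ L b) :
    VQ L (pr c u v k b) := by
  have h1 : ∀ a, VQ L a → ∀ x, VQ L x → VQ L ((om n b a / c) • x) := by
    intro a ha x hx
    obtain ⟨q, hq⟩ := VQ.om_rat hL hb ha
    rw [hq, mul_div_cancel_left₀ _ hc]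
    exact hx.smul q
  unfold pr
  refine VQ.add ?_ (VQ.sum _ _ fun i hi => h1 _ (h.vu i (Finset.mem_range.1 hi)) _
    (h.vv i (Finset.mem_range.1 hi)))
  rw [sub_eq_add_neg]
  refine hb.add ?_
  have h2 := (VQ.sum (L := L) _ _ fun i hi => h1 _ (h.vv i (Finset.mem_range.1 hi)) _
    (h.vu i (Finset.mem_range.1 hi))).smul (-1)
  simpa using h2

theorem Dar.succ {c : ℝ} (hc : c ≠ 0) (hL : ∀ a ∈ L, ∀ b ∈ L, ∃ k : ℤ, om n a b = c * k)
    (hspan : Submodule.span ℝ (L : Set (PtE n)) = ⊤) {u v : ℕ → PtE n} {k : ℕ} (hk : k < n)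
    (h : Dar L c u v k) : ∃ u' v' : ℕ → PtE n, Dar L c u' v' (k + 1) := by
  classical
  -- a vector of `L` outside the span
  obtain ⟨b, hb, hb2⟩ : ∃ b ∈ L, pr c u v k b ≠ 0 := by
    by_contra hcon
    push Not at hcon
    let s : Finset (PtE n) := (Finset.range k).image u ∪ (Finset.range k).image v
    have h1 : (⊤ : Submodule ℝ (PtE n)) ≤ Submodule.span ℝ (s : Set (PtE n)) := by
      rw [← hspan, Submodule.span_le]
      intro b hb
      have h2 := hcon b hb
      have h3 : b = ∑ i ∈ Finset.range k, (om n b (v i) / c) • u i -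
          ∑ i ∈ Finset.range k, (om n b (u i) / c) • v i := by
        unfold pr at h2
        rw [← sub_eq_zero, ← h2]
        abel
      rw [h3]
      refine Submodule.sub_mem _ (Submodule.sum_mem _ fun i hi => Submodule.smul_mem _ _
        (Submodule.subset_span ?_)) (Submodule.sum_mem _ fun i hi => Submodule.smul_mem _ _
        (Submodule.subset_span ?_))
      · exact Finset.mem_coe.2 (Finset.mem_union_left _ (Finset.mem_image_of_mem u hi))
      · exact Finset.mem_coe.2 (Finset.mem_union_right _ (Finset.mem_image_of_mem v hi))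
    have h4 : Module.finrank ℝ (PtE n) ≤ s.card := by
      have h5 := finrank_span_finset_le_card (R := ℝ) s
      unfold Set.finrank at h5
      rw [top_le_iff.1 h1, finrank_top] at h5
      exact h5
    have h6 : Module.finrank ℝ (PtE n) = n + n := by
      rw [Module.finrank_prod, finrank_euclideanSpace_fin]
    have h7 : s.card ≤ k + k := by
      refine (Finset.card_union_le _ _).trans (add_le_add ?_ ?_) <;>
      · refine Finset.card_image_le.trans ?_
        rw [Finset.card_range]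
    omega
  set w := pr c u v k b with hw
  have hwu : ∀ j < k, om n w (u j) = 0 := fun j hj => h.pr_u hc b hj
  have hwv : ∀ j < k, om n w (v j) = 0 := fun j hj => h.pr_v hc b hj
  obtain ⟨b', hb', hb2'⟩ : ∃ b' ∈ L, om n w b' ≠ 0 := by
    by_contra hcon
    push Not at hcon
    refine hb2 (omega_nondeg fun x => ?_)
    have h1 : ∀ x ∈ Submodule.span ℝ (L : Set (PtE n)), om n w x = 0 := by
      intro x hx
      induction hx using Submodule.span_induction with
      | mem x hx => exact hcon x hx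
      | zero => exact map_zero _
      | add x y _ _ hx hy => rw [map_add, hx, hy, add_zero]
      | smul a x _ hx => rw [map_smul, hx, smul_zero]
    have h2 := h1 x (by rw [hspan]; trivial)
    rw [om_apply] at h2
    rw [h2]
    unfold omega
    simp
  set w' := pr c u v k b' with hw'
  have hww : om n w w' = om n w b' := Dar.om_pr hwu hwv b'
  have hwu' : ∀ j < k, om n w' (u j) = 0 := fun j hj => h.pr_u hc b' hj
  have hwv' : ∀ j < k, om n w' (v j) = 0 := fun j hj => h.pr_v hc b' hj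
  have hVw : VQ L w := h.vpr hc hL (VQ.of_mem hb)
  have hVw' : VQ L w' := h.vpr hc hL (VQ.of_mem hb')
  obtain ⟨q, hq⟩ := VQ.om_rat hL hVw hVw'
  have hq0 : q ≠ 0 := by
    rintro rfl
    rw [hww] at hq
    exact hb2' (by rw [hq]; simp)
  have hq0' : (q : ℝ) ≠ 0 := by exact_mod_cast hq0
  let z : PtE n := ((q⁻¹ : ℚ) : ℝ) • w'
  have hVz : VQ L z := hVw'.smul _
  have hwz : om n w z = c := by
    simp only [z, map_smul, smul_eq_mul, hq]
    push_cast
    field_simp
  have hzu : ∀ j < k, om n z (u j) = 0 := fun j hj => by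
    simp only [z, map_smul, LinearMap.smul_apply, hwu' j hj, smul_zero]
  have hzv : ∀ j < k, om n z (v j) = 0 := fun j hj => by
    simp only [z, map_smul, LinearMap.smul_apply, hwv' j hj, smul_zero]
  refine ⟨update u k w, update v k z, ?_, ?_, ?_, ?_, ?_⟩
  · intro i hi
    rcases Nat.lt_succ_iff_lt_or_eq.1 hi with hi | rfl
    · rw [update_of_ne hi.ne]; exact h.vu i hi
    · rw [update_self]; exact hVw
  · intro i hi
    rcases Nat.lt_succ_iff_lt_or_eq.1 hi with hi | rfl
    · rw [update_of_ne hi.ne]; exact h.vv i hi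
    · rw [update_self]; exact hVz
  · intro i hi j hj
    rcases Nat.lt_succ_iff_lt_or_eq.1 hi with hi | rfl <;>
    rcases Nat.lt_succ_iff_lt_or_eq.1 hj with hj | rfl
    · rw [update_of_ne hi.ne, update_of_ne hj.ne]; exact h.uv i hi j hj
    · rw [update_of_ne hi.ne, update_self, om_swap, hzu i hi, if_neg hi.ne, neg_zero]
    · rw [update_of_ne hj.ne, update_self, hwv j hj, if_neg hj.ne']
    · rw [update_self, update_self, if_pos rfl, hwz]
  · intro i hi j hj
    rcases Nat.lt_succ_iff_lt_or_eq.1 hi with hi | rfl <;>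
    rcases Nat.lt_succ_iff_lt_or_eq.1 hj with hj | rfl
    · rw [update_of_ne hi.ne, update_of_ne hj.ne]; exact h.uu i hi j hj
    · rw [update_of_ne hi.ne, update_self, om_swap, hwu i hi, neg_zero]
    · rw [update_of_ne hj.ne, update_self, hwu j hj]
    · rw [update_self, om_self]
  · intro i hi j hj
    rcases Nat.lt_succ_iff_lt_or_eq.1 hi with hi | rfl <;>
    rcases Nat.lt_succ_iff_lt_or_eq.1 hj with hj | rfl
    · rw [update_of_ne hi.ne, update_of_ne hj.ne]; exact h.vv0 i hi j hj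
    · rw [update_of_ne hi.ne, update_self, om_swap, hzv i hi, neg_zero]
    · rw [update_of_ne hj.ne, update_self, hzv j hj]
    · rw [update_self, om_self]

theorem exists_dar {c : ℝ} (hc : c ≠ 0) (hL : ∀ a ∈ L, ∀ b ∈ L, ∃ k : ℤ, om n a b = c * k)
    (hspan : Submodule.span ℝ (L : Set (PtE n)) = ⊤) {k : ℕ} (hk : k ≤ n) :
    ∃ u v : ℕ → PtE n, Dar L c u v k := by
  induction k with
  | zero => exact ⟨fun _ => 0, fun _ => 0, ⟨fun i hi => absurd hi (by omega),
      fun i hi => absurd hi (by omega), fun i hi => absurd hi (by omega),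
      fun i hi => absurd hi (by omega), fun i hi => absurd hi (by omega)⟩⟩
  | succ k ih =>
    obtain ⟨u, v, h⟩ := ih (by omega)
    exact h.succ hc hL hspan hk

end Pool.Agent.H70.CV
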