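import Pool.Agent.H70.CV.Count

/-!
# Hamiltonian diffeomorphisms of manifolds finitely covered by the standard torus
-/

set_option autoImplicit false

open Filter Topology Function Set InnerProductSpace
open scoped Gradient

namespace Pool.Agent.H70.CV

open Pool.Agent.H60.QG (PtE Torus proj proj_surj IsTimeOne IsHamiltonian existsUnique_isTimeOne
  exists_flow sys_iff)

variable {n : ℕ}

/-- The standard symplectic form `∑ dx_i ∧ dy_i`. -/
noncomputable def omega (u v : PtE n) : ℝ := inner ℝ u.1 v.2 - inner ℝ u.2 v.1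

/-- The Hamiltonian vector field. -/
noncomputable def field (F : PtE n → ℝ) (z : PtE n) : PtE n :=
  (∇ (fun y => F (z.1, y)) z.2, -∇ (fun x => F (x, z.2)) z.1)

theorem inner_gradient {E : Type*} [NormedAddCommGroup E] [InnerProductSpace ℝ E] [CompleteSpace E]
    {f : E → ℝ} {x : E} (v : E) : inner ℝ (∇ f x) v = fderiv ℝ f x v := by
  unfold gradient
  rw [toDual_symm_apply]

theorem omega_field {F : PtE n → ℝ} {z : PtE n} (hF : DifferentiableAt ℝ F z) (w : PtE n) :
    omega (field F z) w = fderiv ℝ F z w := by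
  have h1 : HasFDerivAt (fun y => F (z.1, y)) ((fderiv ℝ F z).comp
      ((0 : EuclideanSpace ℝ (Fin n) →L[ℝ] EuclideanSpace ℝ (Fin n)).prod
        (ContinuousLinearMap.id ℝ _))) z.2 :=
    (show HasFDerivAt F (fderiv ℝ F z) (z.1, z.2) from hF.hasFDerivAt).comp z.2
      ((hasFDerivAt_const z.1 z.2).prodMk (hasFDerivAt_id z.2))
  have h2 : HasFDerivAt (fun x => F (x, z.2)) ((fderiv ℝ F z).comp
      ((ContinuousLinearMap.id ℝ (EuclideanSpace ℝ (Fin n))).prod
        (0 : EuclideanSpace ℝ (Fin n) →L[ℝ] EuclideanSpace ℝ (Fin n)))) z.1 :=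
    (show HasFDerivAt F (fderiv ℝ F z) (z.1, z.2) from hF.hasFDerivAt).comp z.1
      ((hasFDerivAt_id z.1).prodMk (hasFDerivAt_const z.2 z.1))
  unfold omega field
  simp only [inner_neg_left, sub_neg_eq_add]
  rw [inner_gradient, inner_gradient, h1.fderiv, h2.fderiv]
  simp only [ContinuousLinearMap.comp_apply, ContinuousLinearMap.prod_apply,
    ContinuousLinearMap.zero_apply, ContinuousLinearMap.id_apply]
  rw [← map_add]
  congr 1
  ext <;> simp

theorem omega_nondeg {u v : PtE n} (h : ∀ w, omega u w = omega v w) : u = v := by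
  refine Prod.ext ?_ ?_
  · refine ext_inner_right ℝ fun w => ?_
    have := h (0, w)
    simpa [omega] using this
  · refine ext_inner_right ℝ fun w => ?_
    have := h (w, 0)
    simpa [omega] using this

theorem field_comp {F : PtE n → ℝ} {A : PtE n ≃L[ℝ] PtE n} {κ : ℝ} (hκ : κ ≠ 0)
    (hA : ∀ u v, omega (A u) (A v) = κ * omega u v) {z : PtE n}
    (hF : DifferentiableAt ℝ F (A z)) :
    A (field (fun z => κ⁻¹ * F (A z)) z) = field F (A z) := by
  refine omega_nondeg fun w => ?_
  obtain ⟨w, rfl⟩ := A.surjective w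
  have h1 : HasFDerivAt (fun z => κ⁻¹ * F (A z)) (κ⁻¹ • (fderiv ℝ F (A z)).comp
      (A : PtE n →L[ℝ] PtE n)) z :=
    (hF.hasFDerivAt.comp z A.hasFDerivAt).const_mul κ⁻¹
  rw [hA, omega_field h1.differentiableAt, omega_field hF, h1.fderiv]
  simp only [ContinuousLinearMap.smul_apply, ContinuousLinearMap.comp_apply, smul_eq_mul,
    ContinuousLinearEquiv.coe_coe]
  field_simp

/-- The data of a manifold which is finitely covered by a standard torus. -/
theorem growth_cover (hn : 1 ≤ n) {M : Type*} {q : PtE n → M} {A : PtE n ≃L[ℝ] PtE n} {κ : ℝ}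
    (hκ : κ ≠ 0) (hA : ∀ u v, omega (A u) (A v) = κ * omega u v)
    (hq : ∀ z w, proj z = proj w → q (A z) = q (A w)) {D : ℕ}
    (hD : ∀ (lf : Torus n → PtE n), (∀ p, proj (lf p) = p) → ∀ m : M,
      ∃ ι : Torus n → Fin D, InjOn ι ((fun p => q (A (lf p))) ⁻¹' {m}))
    {H : ℝ → PtE n → ℝ} (hs : ContDiff ℝ 2 fun p : ℝ × PtE n => H p.1 p.2)
    (ht : ∀ t z, H (t + 1) z = H t z) (hz : ∀ t z w, q z = q w → H t z = H t w)
    {φ : M → M} (hφ : ∀ γ : ℝ → PtE n, (∀ t, HasDerivAt γ (field (H t) (γ t)) t) →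
      φ (q (γ 0)) = q (γ 1)) :
    (2 : EReal) ≤ liminf (fun T : ℝ =>
      ENNReal.log ((orbs φ T).encard : ENNReal) / ((Real.log T : ℝ) : EReal)) atTop ∧
    ∃ c : ℝ, 0 < c ∧ ∀ᶠ T : ℝ in atTop,
      ENNReal.ofReal (c * T ^ 2 / Real.log T) ≤ ((orbs φ T).encard : ENNReal) := by
  -- the Hamiltonian on the standard torus
  set H' : ℝ → PtE n → ℝ := fun t z => κ⁻¹ * H t (A z) with hH'
  have hHam : IsHamiltonian H' := by
    refine ⟨?_, fun t z => by rw [hH']; simp only [ht], fun t z w h => ?_⟩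
    · refine contDiff_const.mul ?_
      exact hs.comp (contDiff_fst.prodMk (A.contDiff.comp contDiff_snd))
    · rw [hH']
      simp only
      rw [hz t _ _ (hq z w h)]
  obtain ⟨φ', hφ', -⟩ := existsUnique_isTimeOne hHam
  obtain ⟨Γ, g0, g1, g2, g3⟩ := exists_flow hHam
  choose lf hlf using proj_surj (n := n)
  have hsemi : ∀ p, (fun p => q (A (lf p))) (φ' p) = φ ((fun p => q (A (lf p))) p) := by
    intro p
    have e1 : φ' p = proj (Γ (lf p) 1) := by
      have := hφ' (Γ (lf p)) fun t => (sys_iff hHam (Γ (lf p)) t).2 (g1 _ t)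
      rw [g0, hlf] at this
      exact this
    have e2 : φ (q (A (lf p))) = q (A (Γ (lf p) 1)) := by
      have := hφ (fun t => A (Γ (lf p) t)) fun t => by
        have d1 := (sys_iff hHam (Γ (lf p)) t).2 (g1 _ t)
        have d2 : HasDerivAt (Γ (lf p)) (field (H' t) (Γ (lf p) t)) t := d1
        have d3 : HasDerivAt (fun t => A (Γ (lf p) t)) (A (field (H' t) (Γ (lf p) t))) t :=
          A.hasFDerivAt.comp_hasDerivAt t d2
        have d4 : DifferentiableAt ℝ (H t) (A (Γ (lf p) t)) := by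
          have : ContDiff ℝ 2 (H t) := hs.comp (contDiff_const.prodMk contDiff_id)
          exact this.differentiable (by norm_num) _
        rw [← field_comp hκ hA d4]
        exact d3
      rw [g0] at this
      exact this
    change q (A (lf (φ' p))) = φ (q (A (lf p)))
    rw [e2, e1]
    exact hq _ _ (hlf _)
  obtain ⟨N, S, ψ, h⟩ := Pool.Agent.H47.QG.exists_decomp one_pos (fun _ => H') (fun _ => φ')
    (fun _ _ => hHam) (fun _ _ => hφ')
  obtain ⟨⟨c, hc, hgr⟩, -⟩ := Pool.Agent.H75.FU.full_all (φ := φ') hn h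
  have hle := fun T => encard_orbs_le hsemi (hD lf hlf) T
  have hDpos : 0 < D := by
    obtain ⟨ι, -⟩ := hD lf hlf (q (A 0))
    exact Fin.pos (ι (proj 0))
  have hres : ∃ c : ℝ, 0 < c ∧ ∀ᶠ T : ℝ in atTop,
      ENNReal.ofReal (c * T ^ 2 / Real.log T) ≤ ((orbs φ T).encard : ENNReal) := by
    have hD0 : (0 : ℝ) < D := by exact_mod_cast hDpos
    refine ⟨c / D, by positivity, hgr.mono fun T hT => ?_⟩
    have k1 : ENNReal.ofReal (c * T ^ 2 / Real.log T) ≤
        ((orbs φ T).encard : ENNReal) * (D : ENNReal) := by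
      refine hT.trans ?_
      have := hle T
      calc ((orbs φ' T).encard : ENNReal) ≤ (((orbs φ T).encard * D : ℕ∞) : ENNReal) := by
            exact_mod_cast this
        _ = _ := by push_cast; rfl
    have k2 : ENNReal.ofReal (c / D * T ^ 2 / Real.log T) * (D : ENNReal) =
        ENNReal.ofReal (c * T ^ 2 / Real.log T) := by
      rw [← ENNReal.ofReal_natCast, ← ENNReal.ofReal_mul' (Nat.cast_nonneg D)]
      congr 1
      field_simp
    rw [← k2] at k1
    exact (ENNReal.mul_le_mul_iff_left (by exact_mod_cast hDpos.ne') (by simp)).1 k1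
  obtain ⟨c, hc, h⟩ := hres
  exact ⟨H60.PO.liminf_of_growth hc h, c, hc, h⟩

end Pool.Agent.H70.CV
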