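import Pool.Agent.H70.CV.Flat

/-!
# Quotients of `ℝ^{2n}` by groups which contain a scaled standard lattice with finite index
-/

set_option autoImplicit false

open Filter Topology Function Set InnerProductSpace
open scoped Gradient

namespace Pool.Agent.H70.CV

open Pool.Agent.H60.QG (PtE Torus proj proj_surj proj_eq projHom)

variable {n : ℕ}

/-- Integer vectors. -/
def IsInt (m : PtE n) : Prop := (∀ i, ∃ k : ℤ, m.1 i = k) ∧ ∀ i, ∃ k : ℤ, m.2 i = k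

theorem isInt_zero : IsInt (0 : PtE n) := ⟨fun _ => ⟨0, by simp⟩, fun _ => ⟨0, by simp⟩⟩

theorem IsInt.add {a b : PtE n} (ha : IsInt a) (hb : IsInt b) : IsInt (a + b) := by
  refine ⟨fun i => ?_, fun i => ?_⟩
  · obtain ⟨k, hk⟩ := ha.1 i
    obtain ⟨l, hl⟩ := hb.1 i
    exact ⟨k + l, by simp [hk, hl]⟩
  · obtain ⟨k, hk⟩ := ha.2 i
    obtain ⟨l, hl⟩ := hb.2 i
    exact ⟨k + l, by simp [hk, hl]⟩

theorem IsInt.neg {a : PtE n} (ha : IsInt a) : IsInt (-a) := by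
  refine ⟨fun i => ?_, fun i => ?_⟩
  · obtain ⟨k, hk⟩ := ha.1 i
    exact ⟨-k, by simp [hk]⟩
  · obtain ⟨k, hk⟩ := ha.2 i
    exact ⟨-k, by simp [hk]⟩

theorem proj_eq_iff (z w : PtE n) : proj z = proj w ↔ IsInt (z - w) := by
  have key : ∀ a b : ℝ, ((a : UnitAddCircle) = (b : UnitAddCircle)) ↔ ∃ k : ℤ, a - b = k := by
    intro a b
    rw [← sub_eq_zero, ← AddCircle.coe_sub, AddCircle.coe_eq_zero_iff]
    constructor
    · rintro ⟨k, hk⟩
      exact ⟨k, by rw [← hk]; simp⟩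
    · rintro ⟨k, hk⟩
      exact ⟨k, by rw [hk]; simp⟩
  unfold proj IsInt
  simp only [Prod.mk.injEq, funext_iff, key]
  rfl

/-- The translations of `ℝ^{2n}` by the vectors `A m`, `m ∈ ℤ^{2n}`. -/
def latTrans (A : PtE n ≃L[ℝ] PtE n) : Subgroup (Equiv.Perm (PtE n)) where
  carrier := {σ | ∃ m : PtE n, IsInt m ∧ ∀ z, σ z = z + A m}
  one_mem' := ⟨0, isInt_zero, fun z => by simp⟩
  mul_mem' := by
    rintro σ τ ⟨a, ha, h1⟩ ⟨b, hb, h2⟩
    refine ⟨a + b, ha.add hb, fun z => ?_⟩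
    rw [Equiv.Perm.mul_apply, h1, h2, map_add]
    abel
  inv_mem' := by
    rintro σ ⟨a, ha, h1⟩
    refine ⟨-a, ha.neg, fun z => ?_⟩
    rw [Equiv.Perm.inv_eq_iff_eq, h1, map_neg]
    abel

theorem exists_fiber {Γ : Subgroup (Equiv.Perm (PtE n))} {A : PtE n ≃L[ℝ] PtE n}
    (hfin : (latTrans A).relIndex Γ ≠ 0) :
    ∃ D : ℕ, ∀ (lf : Torus n → PtE n), (∀ p, proj (lf p) = p) →
      ∀ m : MulAction.orbitRel.Quotient Γ (PtE n), ∃ ι : Torus n → Fin D,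
        InjOn ι ((fun p => (Quotient.mk _ (A (lf p)) : MulAction.orbitRel.Quotient Γ (PtE n))) ⁻¹'
          {m}) := by
  classical
  have hf : Finite (Γ ⧸ (latTrans A).subgroupOf Γ) :=
    (Nat.card_ne_zero.1 (show Nat.card (Γ ⧸ (latTrans A).subgroupOf Γ) ≠ 0 from hfin)).2
  obtain ⟨D, ⟨e⟩⟩ := Finite.exists_equiv_fin (Γ ⧸ (latTrans A).subgroupOf Γ)
  refine ⟨D, fun lf hlf m => ?_⟩
  induction m using Quotient.inductionOn with
  | h y =>
  have h1 : ∀ p : Torus n, ∃ δ : Γ, (Quotient.mk _ (A (lf p)) :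
      MulAction.orbitRel.Quotient Γ (PtE n)) = Quotient.mk _ y → (δ : Equiv.Perm (PtE n))
        (A (lf p)) = y := by
    intro p
    by_cases h : (Quotient.mk _ (A (lf p)) : MulAction.orbitRel.Quotient Γ (PtE n)) =
        Quotient.mk _ y
    · have h2 := Quotient.exact h.symm
      obtain ⟨δ, hδ⟩ : ∃ δ : Γ, δ • (A (lf p)) = y := h2
      exact ⟨δ, fun _ => hδ⟩
    · exact ⟨1, fun h' => (h h').elim⟩
  choose δ hδ using h1
  refine ⟨fun p => e (QuotientGroup.mk (δ p)), fun p hp p' hp' h => ?_⟩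
  have h2 : (QuotientGroup.mk (δ p) : Γ ⧸ (latTrans A).subgroupOf Γ) = QuotientGroup.mk (δ p') :=
    e.injective h
  rw [QuotientGroup.eq] at h2
  obtain ⟨a, ha, h3⟩ : ((δ p)⁻¹ * δ p' : Γ).1 ∈ latTrans A := h2
  have h4 := hδ p hp
  have h5 := hδ p' hp'
  have h6 := h3 (A (lf p'))
  have h7 : (((δ p)⁻¹ * δ p' : Γ).1) (A (lf p')) = A (lf p) := by
    change ((δ p : Equiv.Perm (PtE n))⁻¹ * (δ p' : Equiv.Perm (PtE n))) (A (lf p')) = _
    rw [Equiv.Perm.mul_apply, h5, Equiv.Perm.inv_eq_iff_eq, h4]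
  rw [h7, ← map_add] at h6
  have h8 : lf p = lf p' + a := A.injective h6
  rw [← hlf p, ← hlf p', proj_eq_iff, h8, add_sub_cancel_left]
  exact ha

theorem growth_group (hn : 1 ≤ n) {Γ : Subgroup (Equiv.Perm (PtE n))} {A : PtE n ≃L[ℝ] PtE n}
    {κ : ℝ} (hκ : κ ≠ 0) (hA : ∀ u v, omega (A u) (A v) = κ * omega u v)
    (hle : latTrans A ≤ Γ) (hfin : (latTrans A).relIndex Γ ≠ 0)
    {H : ℝ → PtE n → ℝ} (hs : ContDiff ℝ 2 fun p : ℝ × PtE n => H p.1 p.2)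
    (ht : ∀ t z, H (t + 1) z = H t z) (hz : ∀ t z, ∀ γ ∈ Γ, H t (γ z) = H t z)
    {φ : MulAction.orbitRel.Quotient Γ (PtE n) → MulAction.orbitRel.Quotient Γ (PtE n)}
    (hφ : ∀ γ : ℝ → PtE n, (∀ t, HasDerivAt γ (field (H t) (γ t)) t) →
      φ (Quotient.mk _ (γ 0)) = Quotient.mk _ (γ 1)) :
    (2 : EReal) ≤ liminf (fun T : ℝ =>
      ENNReal.log ((orbs φ T).encard : ENNReal) / ((Real.log T : ℝ) : EReal)) atTop ∧
    ∃ c : ℝ, 0 < c ∧ ∀ᶠ T : ℝ in atTop,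
      ENNReal.ofReal (c * T ^ 2 / Real.log T) ≤ ((orbs φ T).encard : ENNReal) := by
  obtain ⟨D, hD⟩ := exists_fiber hfin
  refine growth_cover hn (q := Quotient.mk _) hκ hA (fun z w h => ?_) hD hs ht
    (fun t z w h => ?_) hφ
  · -- translation by `A (z - w)`
    have h1 := (proj_eq_iff z w).1 h
    let σ : Equiv.Perm (PtE n) := Equiv.addRight (A (z - w))
    have hσ : σ ∈ Γ := hle ⟨z - w, h1, fun x => rfl⟩
    refine Quotient.sound (show MulAction.orbitRel Γ (PtE n) (A z) (A w) from ⟨⟨σ, hσ⟩, ?_⟩)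
    change A w + A (z - w) = A z
    rw [← map_add, add_sub_cancel]
  · obtain ⟨δ, hδ⟩ : ∃ δ : Γ, δ • w = z := Quotient.exact h
    rw [← hδ]
    exact hz t w δ δ.2

end Pool.Agent.H70.CV
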