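import Pool.Agent.H70.CV.Darboux

/-!
# Groups with a finite index translation lattice on which the symplectic form is rational
-/

set_option autoImplicit false

open Filter Topology Function Set InnerProductSpace

namespace Pool.Agent.H70.CV

open Pool.Agent.H60.QG (PtE)

variable {n : ℕ} {L : AddSubgroup (PtE n)}

theorem common_mult (u : ℕ → PtE n) (k : ℕ) (h : ∀ i < k, VQ L (u i)) :
    ∃ N : ℕ, 0 < N ∧ ∀ i < k, (N : ℝ) • u i ∈ L := by
  induction k with
  | zero => exact ⟨1, one_pos, fun i hi => absurd hi (by omega)⟩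
  | succ k ih =>
    obtain ⟨N, hN, h1⟩ := ih fun i hi => h i (by omega)
    obtain ⟨M, hM, h2⟩ := h k (by omega)
    refine ⟨N * M, Nat.mul_pos hN hM, fun i hi => ?_⟩
    rcases Nat.lt_succ_iff_lt_or_eq.1 hi with hi | rfl
    · rw [Nat.cast_mul, mul_comm, mul_smul]
      exact nsmul_mem (h1 i hi) M
    · rw [Nat.cast_mul, mul_smul]
      exact nsmul_mem h2 N

theorem omega_sum (z w : PtE n) :
    omega z w = ∑ i, z.1 i * w.2 i - ∑ i, z.2 i * w.1 i := by
  unfold omega
  simp only [PiLp.inner_apply, RCLike.inner_apply, conj_trivial]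
  congr 1 <;> exact Finset.sum_congr rfl fun i _ => mul_comm _ _

theorem exists_conf {c : ℝ} (hc : c ≠ 0) (hL : ∀ a ∈ L, ∀ b ∈ L, ∃ k : ℤ, om n a b = c * k)
    (hspan : Submodule.span ℝ (L : Set (PtE n)) = ⊤) :
    ∃ (A : PtE n ≃L[ℝ] PtE n) (κ : ℝ) (M : ℕ), κ ≠ 0 ∧
      (∀ u v, omega (A u) (A v) = κ * omega u v) ∧ (∀ m, IsInt m → A m ∈ L) ∧ 0 < M ∧
      ∀ v ∈ L, IsInt ((M : ℝ) • A.symm v) := by
  obtain ⟨u, v, h⟩ := exists_dar hc hL hspan le_rfl
  obtain ⟨N1, hN1, hu1⟩ := common_mult u n h.vu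
  obtain ⟨N2, hN2, hv2⟩ := common_mult v n h.vv
  set N : ℕ := N1 * N2 with hN
  have hNpos : 0 < N := Nat.mul_pos hN1 hN2
  have hN0 : (N : ℝ) ≠ 0 := by exact_mod_cast hNpos.ne'
  let U : Fin n → PtE n := fun i => (N : ℝ) • u i
  let V : Fin n → PtE n := fun i => (N : ℝ) • v i
  have hU : ∀ i, U i ∈ L := fun i => by
    simp only [U, hN]
    rw [Nat.cast_mul, mul_comm, mul_smul]
    exact nsmul_mem (hu1 i i.2) N2
  have hV : ∀ i, V i ∈ L := fun i => by
    simp only [V, hN]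
    rw [Nat.cast_mul, mul_smul]
    exact nsmul_mem (hv2 i i.2) N1
  set κ : ℝ := (N : ℝ) * N * c with hκ
  have hκ0 : κ ≠ 0 := mul_ne_zero (mul_ne_zero hN0 hN0) hc
  have hUV : ∀ i j, om n (U i) (V j) = if i = j then κ else 0 := by
    intro i j
    simp only [U, V, map_smul, LinearMap.smul_apply, smul_eq_mul, h.uv i i.2 j j.2, Fin.val_inj]
    split_ifs
    · rw [hκ]; ring
    · ring
  have hUU : ∀ i j, om n (U i) (U j) = 0 := by
    intro i j
    simp only [U, map_smul, LinearMap.smul_apply, smul_eq_mul, h.uu i i.2 j j.2, mul_zero]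
  have hVV : ∀ i j, om n (V i) (V j) = 0 := by
    intro i j
    simp only [V, map_smul, LinearMap.smul_apply, smul_eq_mul, h.vv0 i i.2 j j.2, mul_zero]
  have hVU : ∀ i j, om n (V i) (U j) = if i = j then -κ else 0 := by
    intro i j
    rw [om_swap, hUV]
    by_cases hij : i = j
    · rw [if_pos hij.symm, if_pos hij]
    · rw [if_neg (Ne.symm hij), if_neg hij, neg_zero]
  let A0 : PtE n →ₗ[ℝ] PtE n :=
    { toFun := fun z => ∑ i, z.1 i • U i + ∑ i, z.2 i • V i
      map_add' := fun z w => by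
        simp only [Prod.fst_add, Prod.snd_add, PiLp.add_apply, add_smul, Finset.sum_add_distrib]
        abel
      map_smul' := fun r z => by
        simp only [Prod.smul_fst, Prod.smul_snd, PiLp.smul_apply, smul_eq_mul, RingHom.id_apply,
          smul_add, Finset.smul_sum, mul_smul] }
  have hA0 : ∀ z, A0 z = ∑ i, z.1 i • U i + ∑ i, z.2 i • V i := fun z => rfl
  have hAV : ∀ z j, om n (A0 z) (V j) = z.1 j * κ := by
    intro z j
    rw [hA0, map_add, map_sum, map_sum]
    simp only [LinearMap.add_apply, LinearMap.sum_apply, map_smul, LinearMap.smul_apply,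
      smul_eq_mul, hUV, hVV, mul_zero, Finset.sum_const_zero, add_zero, mul_ite]
    rw [Finset.sum_ite_eq' Finset.univ j fun i => z.1 i * κ, if_pos (Finset.mem_univ j)]
  have hAU : ∀ z j, om n (A0 z) (U j) = -(z.2 j * κ) := by
    intro z j
    rw [hA0, map_add, map_sum, map_sum]
    simp only [LinearMap.add_apply, LinearMap.sum_apply, map_smul, LinearMap.smul_apply,
      smul_eq_mul, hUU, hVU, mul_zero, Finset.sum_const_zero, zero_add, mul_ite]
    rw [Finset.sum_ite_eq' Finset.univ j fun i => z.2 i * -κ, if_pos (Finset.mem_univ j)]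
    ring
  have hconf : ∀ z w, omega (A0 z) (A0 w) = κ * omega z w := by
    intro z w
    rw [← om_apply, hA0 w, map_add, map_sum, map_sum, omega_sum]
    simp only [map_smul, smul_eq_mul, hAU, hAV]
    rw [mul_sub, Finset.mul_sum, Finset.mul_sum]
    have e1 : ∑ i, w.1 i * -(z.2 i * κ) = -∑ i, κ * (z.2 i * w.1 i) := by
      rw [← Finset.sum_neg_distrib]
      exact Finset.sum_congr rfl fun i _ => by ring
    have e2 : ∑ i, w.2 i * (z.1 i * κ) = ∑ i, κ * (z.1 i * w.2 i) :=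
      Finset.sum_congr rfl fun i _ => by ring
    rw [e1, e2]
    ring
  have hinj : Injective A0 := by
    rw [← LinearMap.ker_eq_bot, LinearMap.ker_eq_bot']
    intro z hz
    refine omega_nondeg fun w => ?_
    have h1 := hconf z w
    rw [hz] at h1
    have h2 : omega (0 : PtE n) (A0 w) = 0 := by unfold omega; simp
    have h3 : omega (0 : PtE n) w = 0 := by unfold omega; simp
    rw [h2] at h1
    rw [h3]
    exact (mul_eq_zero.1 h1.symm).resolve_left hκ0
  let A : PtE n ≃L[ℝ] PtE n := (LinearEquiv.ofInjectiveEndo A0 hinj).toContinuousLinearEquiv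
  have hA : ∀ z, A z = A0 z := fun z => rfl
  refine ⟨A, κ, N * N, hκ0, fun z w => hconf z w, fun m hm => ?_, Nat.mul_pos hNpos hNpos,
    fun x hx => ?_⟩
  · rw [hA, hA0]
    refine L.add_mem (L.sum_mem fun i _ => ?_) (L.sum_mem fun i _ => ?_)
    · obtain ⟨k, hk⟩ := hm.1 i
      rw [hk]
      exact zsmul_mem' (hU i) k
    · obtain ⟨k, hk⟩ := hm.2 i
      rw [hk]
      exact zsmul_mem' (hV i) k
  · obtain ⟨z, rfl⟩ := A.surjective x
    rw [A.symm_apply_apply]
    refine ⟨fun j => ?_, fun j => ?_⟩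
    · obtain ⟨k, hk⟩ := hL _ hx _ (hV j)
      rw [hA, hAV, hκ] at hk
      refine ⟨k, ?_⟩
      have h1 : c * ((N : ℝ) * N * z.1 j) = c * k := by rw [← hk]; ring
      have h2 := mul_left_cancel₀ hc h1
      simp only [Prod.smul_fst, PiLp.smul_apply, smul_eq_mul]
      push_cast
      exact h2
    · obtain ⟨k, hk⟩ := hL _ hx _ (hU j)
      rw [hA, hAU, hκ] at hk
      refine ⟨-k, ?_⟩
      have h1 : c * ((N : ℝ) * N * z.2 j) = c * (-k) := by rw [mul_neg, ← hk]; ring
      have h2 := mul_left_cancel₀ hc h1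
      simp only [Prod.smul_snd, PiLp.smul_apply, smul_eq_mul]
      push_cast
      exact h2

/-- The translations of `ℝ^{2n}` by the vectors of `L`. -/
def trans (L : AddSubgroup (PtE n)) : Subgroup (Equiv.Perm (PtE n)) where
  carrier := {σ | ∃ v ∈ L, ∀ z, σ z = z + v}
  one_mem' := ⟨0, L.zero_mem, fun z => by simp⟩
  mul_mem' := by
    rintro σ τ ⟨a, ha, h1⟩ ⟨b, hb, h2⟩
    refine ⟨a + b, L.add_mem ha hb, fun z => ?_⟩
    rw [Equiv.Perm.mul_apply, h1, h2]
    abel
  inv_mem' := by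
    rintro σ ⟨a, ha, h1⟩
    refine ⟨-a, L.neg_mem ha, fun z => ?_⟩
    rw [Equiv.Perm.inv_eq_iff_eq, h1]
    abel

theorem relIndex_trans {A : PtE n ≃L[ℝ] PtE n} {M : ℕ} (hM : 0 < M)
    (h : ∀ v ∈ L, IsInt ((M : ℝ) • A.symm v)) : (latTrans A).relIndex (trans L) ≠ 0 := by
  classical
  have : NeZero M := ⟨hM.ne'⟩
  have h0 : ∀ σ : trans L, ∃ v ∈ L, (∀ z, σ.1 z = z + v) := fun σ => σ.2
  choose v hv hσ using h0
  have h1 := fun σ : trans L => (h _ (hv σ)).1
  have h2 := fun σ : trans L => (h _ (hv σ)).2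
  choose k hk using h1
  choose l hl using h2
  have hinj : Injective fun x : (trans L) ⧸ (latTrans A).subgroupOf (trans L) =>
      ((fun i => (k x.out i : ZMod M), fun i => (l x.out i : ZMod M)) :
        (Fin n → ZMod M) × (Fin n → ZMod M)) := by
    intro x y hxy
    simp only [Prod.mk.injEq, funext_iff] at hxy
    obtain ⟨e1, e2⟩ := hxy
    have h3 : IsInt (A.symm (v y.out - v x.out)) := by
      have hM0 : (M : ℝ) ≠ 0 := by exact_mod_cast hM.ne'
      refine ⟨fun i => ?_, fun i => ?_⟩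
      · obtain ⟨d, hd⟩ := (ZMod.intCast_eq_intCast_iff_dvd_sub _ _ M).1 (e1 i)
        refine ⟨d, ?_⟩
        have a1 := hk x.out i
        have a2 := hk y.out i
        simp only [Prod.smul_fst, PiLp.smul_apply, smul_eq_mul] at a1 a2
        rw [map_sub]
        simp only [Prod.fst_sub, PiLp.sub_apply]
        have a3 : (k y.out i : ℝ) - k x.out i = M * d := by exact_mod_cast hd
        refine mul_left_cancel₀ hM0 ?_
        rw [mul_sub, a1, a2, a3]
      · obtain ⟨d, hd⟩ := (ZMod.intCast_eq_intCast_iff_dvd_sub _ _ M).1 (e2 i)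
        refine ⟨d, ?_⟩
        have a1 := hl x.out i
        have a2 := hl y.out i
        simp only [Prod.smul_snd, PiLp.smul_apply, smul_eq_mul] at a1 a2
        rw [map_sub]
        simp only [Prod.snd_sub, PiLp.sub_apply]
        have a3 : (l y.out i : ℝ) - l x.out i = M * d := by exact_mod_cast hd
        refine mul_left_cancel₀ hM0 ?_
        rw [mul_sub, a1, a2, a3]
    rw [← Quotient.out_eq' x, ← Quotient.out_eq' y]
    refine QuotientGroup.eq.2 ?_
    refine ⟨_, h3, fun z => ?_⟩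
    rw [A.apply_symm_apply]
    change ((x.out : trans L).1⁻¹ * (y.out : trans L).1) z = _
    rw [Equiv.Perm.mul_apply, Equiv.Perm.inv_eq_iff_eq, hσ, hσ]
    abel
  have hfin : Finite ((trans L) ⧸ (latTrans A).subgroupOf (trans L)) := Finite.of_injective _ hinj
  exact Nat.card_ne_zero.2 ⟨inferInstance, hfin⟩

/-- **Quadratic growth on `ℝ^{2n} / Γ`.** -/
theorem growth_rational (hn : 1 ≤ n) {Γ : Subgroup (Equiv.Perm (PtE n))} {c : ℝ} (hc : c ≠ 0)
    (hL : ∀ a ∈ L, ∀ b ∈ L, ∃ k : ℤ, omega a b = c * k)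
    (hspan : Submodule.span ℝ (L : Set (PtE n)) = ⊤)
    (hle : trans L ≤ Γ) (hfin : (trans L).relIndex Γ ≠ 0)
    {H : ℝ → PtE n → ℝ} (hs : ContDiff ℝ 2 fun p : ℝ × PtE n => H p.1 p.2)
    (ht : ∀ t z, H (t + 1) z = H t z) (hz : ∀ t z, ∀ γ ∈ Γ, H t (γ z) = H t z)
    {φ : MulAction.orbitRel.Quotient Γ (PtE n) → MulAction.orbitRel.Quotient Γ (PtE n)}
    (hφ : ∀ γ : ℝ → PtE n, (∀ t, HasDerivAt γ (field (H t) (γ t)) t) →
      φ (Quotient.mk _ (γ 0)) = Quotient.mk _ (γ 1)) :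
    (2 : EReal) ≤ liminf (fun T : ℝ =>
      ENNReal.log ((orbs φ T).encard : ENNReal) / ((Real.log T : ℝ) : EReal)) atTop ∧
    ∃ c : ℝ, 0 < c ∧ ∀ᶠ T : ℝ in atTop,
      ENNReal.ofReal (c * T ^ 2 / Real.log T) ≤ ((orbs φ T).encard : ENNReal) := by
  obtain ⟨A, κ, M, h1, h2, h3, h4, h5⟩ := exists_conf hc (fun a ha b hb => hL a ha b hb) hspan
  have h6 : latTrans A ≤ trans L := by
    rintro σ ⟨m, hm, hσ⟩
    exact ⟨A m, h3 m hm, hσ⟩
  refine growth_group hn h1 h2 (h6.trans hle) ?_ hs ht hz hφ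
  rw [← Subgroup.relIndex_mul_relIndex _ _ _ h6 hle]
  exact mul_ne_zero (relIndex_trans h4 h5) hfin

end Pool.Agent.H70.CV
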